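import Pool.Agent.Lib.MP_ed1a61_al_W.KA
import Pool.Agent.Lib.MP_ed1a61_al_Q.Defs

/-! # The interface to the lower bound -/

set_option autoImplicit false

namespace SclIrr.W

/-- The substitution is injective on signed words. -/
theorem phS_injective : Function.Injective phS := by
  intro L
  induction L with
  | nil =>
    intro M h
    have h1 := head_phS M
    rw [← h, phS_nil] at h1
    simp only [List.head?_nil] at h1
    exact (List.head?_eq_none_iff.1 h1.symm).symm
  | cons x L ih =>
    intro M h
    have h1 := head_phS M
    rw [← h, head_phS] at h1
    cases M with
    | nil => simp at h1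
    | cons y M =>
      simp only [List.head?_cons, Option.some.injEq] at h1
      subst h1
      rw [phS_cons, phS_cons, List.append_cancel_left_eq] at h
      rw [ih h]

/-- Everything that section 2.3 uses. -/
theorem kdat : SclIrr.Q.KDat phS K rho where
  app := phS_append
  inv := phS_invRev
  red := fun _ h => isReduced_phS h
  inj := fun _ _ _ _ h => phS_injective h
  head := fun L => by rw [head_phS]
  last := fun L => by rw [last_phS]
  shift := K_shift
  sup := K_add_le
  sub := fun i L j M k => K_le_add i L j M k
  subneg := fun i L j M k h h' => by
    have e1 : ∃ x, L.getLast? = some (x, false) := by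
      cases hl : L.getLast? with
      | none => rw [hl] at h; simp at h
      | some p =>
        obtain ⟨x, s⟩ := p
        rw [hl] at h
        simp only [Option.map_some, Option.some.injEq] at h
        exact ⟨x, by rw [h]⟩
    have e2 : ∃ y, M.head? = some (y, false) := by
      cases hl : M.head? with
      | none => rw [hl] at h'; simp at h'
      | some p =>
        obtain ⟨x, s⟩ := p
        rw [hl] at h'
        simp only [Option.map_some, Option.some.injEq] at h'
        exact ⟨x, by rw [h']⟩
    obtain ⟨x, hx⟩ := e1
    obtain ⟨y, hy⟩ := e2
    exact K_le_add_neg i L j M k x y hx hy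
  neg := fun i L j h h' => (K_neg i L j h h').le
  low := neg_C0_le_K
  ka := by
    have := K_letter 0
    rwa [nu_a] at this
  kb := le_K_pow
  kb' := fun n => by
    have := K_pow_le n
    rw [add_comm] at this
    exact this

end SclIrr.W
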