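import Mathlib

/-! # MP_ed1a61_al, block W: words, the substitution, the relation `Val`, the functions `K`

Positive words are lists over `Fin 2` (`0` is the letter a, `1` is the letter b), signed words
are lists over `Fin 2 × Bool` (`true` is the positive sign), as in `FreeGroup (Fin 2)`.
-/

set_option autoImplicit false

namespace SclIrr.W

/-- The images of the two letters:
`a ↦ aaaabaabbbaabbabbaabaa`, `b ↦ babaababaaaaaabbaaababbabab`. -/
def phL (x : Fin 2) : List (Fin 2) :=
  if x = 0 then [0, 0, 0, 0, 1, 0, 0, 1, 1, 1, 0, 0, 1, 1, 0, 1, 1, 0, 0, 1, 0, 0]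
  else [1, 0, 1, 0, 0, 1, 0, 1, 0, 0, 0, 0, 0, 0, 1, 1, 0, 0, 0, 1, 0, 1, 1, 0, 1, 0, 1]

/-- The substitution on positive words. -/
def ph (w : List (Fin 2)) : List (Fin 2) := w.flatMap phL

/-- A positive word as a signed word. -/
def pos (w : List (Fin 2)) : List (Fin 2 × Bool) := w.map (fun x => (x, true))

/-- The image of a signed letter. -/
def phS1 (p : Fin 2 × Bool) : List (Fin 2 × Bool) :=
  if p.2 = true then pos (phL p.1) else FreeGroup.invRev (pos (phL p.1))

/-- The substitution on signed words. -/
def phS (L : List (Fin 2 × Bool)) : List (Fin 2 × Bool) := L.flatMap phS1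

/-- `ρ = (√145 - 1)/16`. -/
noncomputable def rho : ℝ := (Real.sqrt 145 - 1) / 16

/-- `μ = 12 - √145`. -/
noncomputable def mu : ℝ := 12 - Real.sqrt 145

/-- `ν(w) = #b - ρ #a`. -/
noncomputable def nu (w : List (Fin 2)) : ℝ := (w.count 1 : ℝ) - rho * (w.count 0 : ℝ)

/-- The constant `C₀ = 120`. -/
def C0 : ℝ := 120

/-- The constant `C₃ = 2 C₀ + 1 = 241`. -/
def C3 : ℝ := 241

/-- The relation `Val(i,M,k;p)`: the signed word `M` with heights `i` and `k` of its ends has a
decomposition into blocks of total value `p`. -/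
inductive Val : ℕ → List (Fin 2 × Bool) → ℕ → ℝ → Prop
  | base (i : ℕ) (v : List (Fin 2)) (M : List (Fin 2 × Bool)) (p : ℝ)
      (hM : M = pos (ph^[i] v)) (hp : p = nu v) : Val i M i p
  | step (i : ℕ) (M : List (Fin 2 × Bool)) (k : ℕ) (p : ℝ) (U : List (Fin 2 × Bool)) (j : ℕ)
      (v : List (Fin 2)) (M' : List (Fin 2 × Bool)) (p' : ℝ) (h : Val i M k p)
      (hM : M' = M ++ U ++ pos (ph^[j] v)) (hp : p' = p + nu v - C0) : Val i M' j p'

/-- `K(i,L,j)`: supremum of the `p` with `Val(i+n, φⁿ(L), j+n; p)` for some `n`. -/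
noncomputable def K (i : ℕ) (L : List (Fin 2 × Bool)) (j : ℕ) : ℝ :=
  sSup {p : ℝ | ∃ n : ℕ, Val (i + n) (phS^[n] L) (j + n) p}

/-! ## Elementary facts -/

theorem ph_nil : ph [] = [] := rfl

theorem ph_cons (x : Fin 2) (w : List (Fin 2)) : ph (x :: w) = phL x ++ ph w := by
  simp [ph]

theorem ph_append (u v : List (Fin 2)) : ph (u ++ v) = ph u ++ ph v := by
  simp [ph]

theorem ph_single (x : Fin 2) : ph [x] = phL x := by simp [ph]

theorem phL_ne_nil (x : Fin 2) : phL x ≠ [] := by
  fin_cases x <;> simp [phL]

theorem length_phL_le (x : Fin 2) : (phL x).length ≤ 27 := by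
  fin_cases x <;> simp [phL]

theorem le_length_phL (x : Fin 2) : 22 ≤ (phL x).length := by
  fin_cases x <;> simp [phL]

theorem length_ph_ge (w : List (Fin 2)) : 22 * w.length ≤ (ph w).length := by
  induction w with
  | nil => simp
  | cons x w ih =>
    rw [ph_cons, List.length_append, List.length_cons]
    have := le_length_phL x
    omega

theorem ph_eq_nil {w : List (Fin 2)} (h : ph w = []) : w = [] := by
  have h1 := length_ph_ge w
  rw [h] at h1
  simp only [List.length_nil] at h1
  exact List.eq_nil_of_length_eq_zero (by omega)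

theorem iter_nil (k : ℕ) : ph^[k] [] = [] := by
  induction k with
  | zero => rfl
  | succ k ih => rw [Function.iterate_succ_apply', ih, ph_nil]

theorem iter_append (k : ℕ) (u v : List (Fin 2)) :
    ph^[k] (u ++ v) = ph^[k] u ++ ph^[k] v := by
  induction k with
  | zero => rfl
  | succ k ih => simp only [Function.iterate_succ_apply', ih, ph_append]

theorem iter_cons (k : ℕ) (x : Fin 2) (w : List (Fin 2)) :
    ph^[k] (x :: w) = ph^[k] [x] ++ ph^[k] w := by
  rw [← List.singleton_append, iter_append]

theorem iter_eq_nil {k : ℕ} {w : List (Fin 2)} (h : ph^[k] w = []) : w = [] := by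
  induction k with
  | zero => exact h
  | succ k ih =>
    rw [Function.iterate_succ_apply'] at h
    exact ih (ph_eq_nil h)

theorem pos_nil : pos [] = [] := rfl

theorem pos_append (u v : List (Fin 2)) : pos (u ++ v) = pos u ++ pos v := by
  simp [pos]

theorem pos_eq_nil {w : List (Fin 2)} (h : pos w = []) : w = [] := by
  simpa [pos] using h

theorem pos_length (w : List (Fin 2)) : (pos w).length = w.length := by simp [pos]

theorem pos_injective : Function.Injective pos := by
  intro u v h
  have := congrArg (List.map Prod.fst) h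
  simpa [pos, Function.comp_def] using this

theorem mem_pos {w : List (Fin 2)} {p : Fin 2 × Bool} (h : p ∈ pos w) : p.2 = true := by
  simp only [pos, List.mem_map] at h
  obtain ⟨x, -, rfl⟩ := h
  rfl

/-- A decomposition of a positive signed word into two pieces. -/
theorem pos_eq_append {w : List (Fin 2)} {A B : List (Fin 2 × Bool)} (h : A ++ B = pos w) :
    ∃ u v, w = u ++ v ∧ A = pos u ∧ B = pos v := by
  have h1 : w.map (fun x => (x, true)) = A ++ B := h.symm
  rw [List.map_eq_append_iff] at h1
  obtain ⟨u, v, h2, h3, h4⟩ := h1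
  exact ⟨u, v, h2, h3.symm, h4.symm⟩

theorem phS_nil : phS [] = [] := rfl

theorem phS_cons (p : Fin 2 × Bool) (L : List (Fin 2 × Bool)) :
    phS (p :: L) = phS1 p ++ phS L := by simp [phS]

theorem phS_append (L M : List (Fin 2 × Bool)) : phS (L ++ M) = phS L ++ phS M := by
  simp [phS]

theorem phS_single (p : Fin 2 × Bool) : phS [p] = phS1 p := by simp [phS]

theorem phS_pos (w : List (Fin 2)) : phS (pos w) = pos (ph w) := by
  induction w with
  | nil => rfl
  | cons x w ih =>
    have : pos (x :: w) = (x, true) :: pos w := rfl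
    rw [this, phS_cons, ih, ph_cons, pos_append]
    rfl

theorem phS_iter_pos (k : ℕ) (w : List (Fin 2)) : phS^[k] (pos w) = pos (ph^[k] w) := by
  induction k with
  | zero => rfl
  | succ k ih => rw [Function.iterate_succ_apply', Function.iterate_succ_apply', ih, phS_pos]

theorem phS_iter_append (k : ℕ) (L M : List (Fin 2 × Bool)) :
    phS^[k] (L ++ M) = phS^[k] L ++ phS^[k] M := by
  induction k with
  | zero => rfl
  | succ k ih => simp only [Function.iterate_succ_apply', ih, phS_append]

theorem phS_iter_nil (k : ℕ) : phS^[k] [] = [] := by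
  induction k with
  | zero => rfl
  | succ k ih => rw [Function.iterate_succ_apply', ih, phS_nil]

theorem invRev_pos_neg {w : List (Fin 2)} {p : Fin 2 × Bool}
    (h : p ∈ FreeGroup.invRev (pos w)) : p.2 = false := by
  simp only [FreeGroup.invRev, pos, List.map_map, List.mem_reverse, List.mem_map] at h
  obtain ⟨x, -, rfl⟩ := h
  rfl

theorem phS_invRev (L : List (Fin 2 × Bool)) :
    phS (FreeGroup.invRev L) = FreeGroup.invRev (phS L) := by
  induction L with
  | nil => rfl
  | cons p L ih =>
    have h1 : FreeGroup.invRev (p :: L) = FreeGroup.invRev L ++ [(p.1, !p.2)] := by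
      simp [FreeGroup.invRev]
    have h2 : ∀ A B : List (Fin 2 × Bool), FreeGroup.invRev (A ++ B) =
        FreeGroup.invRev B ++ FreeGroup.invRev A := by
      intro A B
      simp [FreeGroup.invRev]
    rw [h1, phS_append, ih, phS_cons p L, h2, phS_single]
    congr 1
    obtain ⟨x, s⟩ := p
    cases s <;> simp [phS1]

/-! ## The numbers -/

theorem nu_nil : nu [] = 0 := by simp [nu]

theorem nu_append (u v : List (Fin 2)) : nu (u ++ v) = nu u + nu v := by
  simp only [nu, List.count_append, Nat.cast_add]
  ring

theorem nu_b : nu [1] = 1 := by simp [nu]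

theorem nu_a : nu [0] = - rho := by simp [nu]

theorem sqrt_bounds : 12.04 < Real.sqrt 145 ∧ Real.sqrt 145 < 12.05 := by
  constructor
  · rw [Real.lt_sqrt (by norm_num)]
    norm_num
  · rw [Real.sqrt_lt' (by norm_num)]
    norm_num

theorem rho_pos : 0 < rho := by
  have := sqrt_bounds.1
  unfold rho
  linarith

theorem rho_lt_one : rho < 1 := by
  have := sqrt_bounds.2
  unfold rho
  linarith

theorem rho_quad : 16 * rho ^ 2 + 2 * rho = 9 := by
  have h : Real.sqrt 145 * Real.sqrt 145 = 145 := Real.mul_self_sqrt (by norm_num)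
  unfold rho
  nlinarith

theorem mu_eq : mu = 11 - 16 * rho := by
  unfold mu rho
  ring

theorem abs_mu_le : |mu| ≤ 1 / 10 := by
  obtain ⟨h1, h2⟩ := sqrt_bounds
  unfold mu
  rw [abs_le]
  constructor <;> linarith

theorem rho_irrational : Irrational rho := by
  have h : Irrational (Real.sqrt 145) := by
    have h1 : ¬ IsSquare (145 : ℕ) := by
      intro ⟨r, hr⟩
      have h2 : r ≤ 12 := by
        by_contra h3
        have h4 : 13 ≤ r := by omega
        nlinarith
      interval_cases r <;> omega
    have h2 := (irrational_sqrt_natCast_iff (n := 145)).2 h1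
    simpa using h2
  have h2 : rho = Real.sqrt 145 * ((1 / 16 : ℚ) : ℝ) - ((1 / 16 : ℚ) : ℝ) := by
    unfold rho
    push_cast
    ring
  rw [h2]
  exact (h.mul_ratCast (by norm_num)).sub_ratCast _

theorem nu_phL (x : Fin 2) : nu (phL x) = mu * nu [x] := by
  have h := rho_quad
  have h0 : x = 0 ∨ x = 1 := by omega
  rcases h0 with rfl | rfl
  · rw [nu_a, mu_eq]
    have h1 : (phL 0).count 1 = 9 := by decide
    have h2 : (phL 0).count 0 = 13 := by decide
    rw [nu, h1, h2]
    push_cast
    linarith
  · rw [nu_b, mu_eq]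
    have h1 : (phL 1).count 1 = 11 := by decide
    have h2 : (phL 1).count 0 = 16 := by decide
    rw [nu, h1, h2]
    push_cast
    linarith

theorem nu_ph (w : List (Fin 2)) : nu (ph w) = mu * nu w := by
  induction w with
  | nil => simp [ph_nil, nu_nil]
  | cons x w ih =>
    rw [ph_cons, nu_append, ih, nu_phL, ← List.singleton_append (x := x) (l := w), nu_append]
    ring

theorem nu_iter (k : ℕ) (w : List (Fin 2)) : nu (ph^[k] w) = mu ^ k * nu w := by
  induction k with
  | zero => simp
  | succ k ih =>
    rw [Function.iterate_succ_apply', nu_ph, ih]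
    ring

theorem abs_nu_le (w : List (Fin 2)) : |nu w| ≤ w.length := by
  induction w with
  | nil => simp [nu_nil]
  | cons x w ih =>
    rw [← List.singleton_append (x := x) (l := w), nu_append]
    have h1 : |nu [x]| ≤ 1 := by
      have h0 : x = 0 ∨ x = 1 := by omega
      rcases h0 with rfl | rfl
      · rw [nu_a, abs_neg, abs_of_pos rho_pos]
        exact rho_lt_one.le
      · rw [nu_b]
        norm_num
    have h2 := abs_add_le (nu [x]) (nu w)
    simp only [List.singleton_append, List.length_cons, Nat.cast_add, Nat.cast_one]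
    linarith

theorem nu_single_le (x : Fin 2) : nu [x] ≤ 1 := by
  have := abs_nu_le [x]
  have h2 := le_abs_self (nu [x])
  simp only [List.length_singleton, Nat.cast_one] at this
  linarith

end SclIrr.W
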