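import Pool.Agent.Lib.MP_ed1a61_al_W.Defs

/-! # Counting letters in `φᵏ(a)` -/

set_option autoImplicit false

namespace SclIrr.W

theorem count0_ph (w : List (Fin 2)) :
    (ph w).count 0 = 13 * w.count 0 + 16 * w.count 1 := by
  induction w with
  | nil => rfl
  | cons x w ih =>
    rw [ph_cons, List.count_append, ih]
    have h0 : x = 0 ∨ x = 1 := by omega
    rcases h0 with rfl | rfl
    · have h1 : (phL 0).count 0 = 13 := by decide
      rw [h1, List.count_cons_self, List.count_cons_of_ne (by decide)]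
      ring
    · have h1 : (phL 1).count 0 = 16 := by decide
      rw [h1, List.count_cons_self, List.count_cons_of_ne (by decide)]
      ring

theorem count1_ph (w : List (Fin 2)) :
    (ph w).count 1 = 9 * w.count 0 + 11 * w.count 1 := by
  induction w with
  | nil => rfl
  | cons x w ih =>
    rw [ph_cons, List.count_append, ih]
    have h0 : x = 0 ∨ x = 1 := by omega
    rcases h0 with rfl | rfl
    · have h1 : (phL 0).count 1 = 9 := by decide
      rw [h1, List.count_cons_self, List.count_cons_of_ne (by decide)]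
      ring
    · have h1 : (phL 1).count 1 = 11 := by decide
      rw [h1, List.count_cons_self, List.count_cons_of_ne (by decide)]
      ring

/-- The number of letters a in `φᵏ(a)`. -/
def pc (k : ℕ) : ℕ := (ph^[k] [0]).count 0

/-- The number of letters b in `φᵏ(a)`. -/
def qc (k : ℕ) : ℕ := (ph^[k] [0]).count 1

theorem pc_zero : pc 0 = 1 := rfl

theorem qc_zero : qc 0 = 0 := rfl

theorem pc_succ (k : ℕ) : pc (k + 1) = 13 * pc k + 16 * qc k := by
  rw [pc, Function.iterate_succ_apply', count0_ph]
  rfl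

theorem qc_succ (k : ℕ) : qc (k + 1) = 9 * pc k + 11 * qc k := by
  rw [qc, Function.iterate_succ_apply', count1_ph]
  rfl

theorem pow_le_pc (k : ℕ) : 13 ^ k ≤ pc k := by
  induction k with
  | zero => rfl
  | succ k ih =>
    rw [pc_succ, pow_succ]
    omega

theorem pc_pos (k : ℕ) : 0 < pc k := lt_of_lt_of_le (by positivity) (pow_le_pc k)

theorem qc_le_pc (k : ℕ) : qc k ≤ pc k := by
  cases k with
  | zero => decide
  | succ k =>
    rw [pc_succ, qc_succ]
    omega

theorem length_iter_a (k : ℕ) : (ph^[k] [0]).length = pc k + qc k := by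
  have h : ∀ w : List (Fin 2), w.length = w.count 0 + w.count 1 := by
    intro w
    induction w with
    | nil => rfl
    | cons x w ih =>
      have h0 : x = 0 ∨ x = 1 := by omega
      rcases h0 with rfl | rfl
      · rw [List.length_cons, List.count_cons_self, List.count_cons_of_ne (by decide), ih]
        ring
      · rw [List.length_cons, List.count_cons_self, List.count_cons_of_ne (by decide), ih]
        ring
  exact h _

theorem qc_sub (k : ℕ) : (qc k : ℝ) - rho * (pc k : ℝ) = - (rho * mu ^ k) := by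
  have := nu_iter k [0]
  rw [nu_a] at this
  have h : nu (ph^[k] [0]) = (qc k : ℝ) - rho * (pc k : ℝ) := rfl
  rw [← h, this]
  ring

theorem abs_qc_sub_le (k : ℕ) : |(qc k : ℝ) - rho * (pc k : ℝ)| ≤ 1 := by
  rw [qc_sub, abs_neg, abs_mul, abs_pow, abs_of_pos rho_pos]
  have h1 : |mu| ^ k ≤ 1 := pow_le_one₀ (abs_nonneg _) (le_trans abs_mu_le (by norm_num))
  have h2 := rho_lt_one.le
  have h3 := rho_pos.le
  have h4 : 0 ≤ |mu| ^ k := by positivity
  nlinarith

theorem tendsto_qc_div_pc :
    Filter.Tendsto (fun k : ℕ => (qc k : ℝ) / (pc k : ℝ)) Filter.atTop (nhds rho) := by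
  rw [tendsto_iff_norm_sub_tendsto_zero]
  have h1 : Filter.Tendsto (fun k : ℕ => ((1 : ℝ) / 13) ^ k) Filter.atTop (nhds 0) :=
    tendsto_pow_atTop_nhds_zero_of_lt_one (by norm_num) (by norm_num)
  refine squeeze_zero (fun _ => norm_nonneg _) (fun k => ?_) h1
  have hp : (0 : ℝ) < pc k := by exact_mod_cast pc_pos k
  have h2 : (qc k : ℝ) / (pc k : ℝ) - rho = ((qc k : ℝ) - rho * (pc k : ℝ)) / (pc k : ℝ) := by
    field_simp
  rw [h2, Real.norm_eq_abs, abs_div, abs_of_pos hp, div_le_iff₀ hp]
  have h3 : ((13 : ℝ)) ^ k ≤ pc k := by exact_mod_cast pow_le_pc k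
  have h4 : (1 : ℝ) ≤ (1 / 13) ^ k * (pc k : ℝ) := by
    have h5 : ((1 : ℝ) / 13) ^ k * (13 : ℝ) ^ k = 1 := by
      rw [← mul_pow]
      norm_num
    have h6 : (0 : ℝ) ≤ (1 / 13) ^ k := by positivity
    nlinarith
  exact le_trans (abs_qc_sub_le k) h4

end SclIrr.W
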