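import Pool.Agent.Lib.MP_ed1a61_al_W.Rec

/-! # Bounded discrepancy -/

set_option autoImplicit false

namespace SclIrr.W

/-- An initial part of `φ(w)`. -/
private theorem disc_init (w v t : List (Fin 2)) (h : v ++ t = ph w) :
    ∃ v' P, v = ph v' ++ P ∧ v' <+: w ∧ P.length ≤ 27 := by
  rcases split_ph w v t h with ⟨w1, w2, h1, h2, -⟩ | ⟨w1, x, w2, P, Q, h1, -, -, h2, h3, -⟩
  · exact ⟨w1, [], by rw [List.append_nil, h2], ⟨w2, h1.symm⟩, by simp⟩
  · refine ⟨w1, P, h3, ⟨x :: w2, h1.symm⟩, ?_⟩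
    have h4 := congrArg List.length h2
    rw [List.length_append] at h4
    have h5 := length_phL_le x
    omega

/-- A factor of `φ(w)` is `S ++ φ(v') ++ P` with short `S`, `P` and `v'` a factor of `w`.

PROOF. `h : ∃ s t, s ++ v ++ t = ph w`. Apply `split_ph` (module Rec) to the cut `s | v ++ t`.
Case boundary: `w = w1 ++ w2`, `v ++ t = ph w2`. Apply `split_ph` again to `v | t` in `ph w2`:
boundary: `v = ph w3`, `w2 = w3 ++ w4`: S = P = []; inside: `v = ph w3 ++ P`, `P` a piece of
`phL x`, so `|P| ≤ 27`.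
Case inside: `w = w1 ++ x :: w2`, `P0 ++ Q = phL x`, `v ++ t = Q ++ ph w2`. With
`List.append_eq_append_iff`: either `v` is an initial part of `Q` (then `S = v`, `v' = []`,
`P = []`, `|v| ≤ |Q| ≤ 27`) or `v = Q ++ v2`, `v2 ++ t = ph w2`, and the first case applies to
`v2`. -/
theorem factor_ph (w v : List (Fin 2)) (h : v <:+: ph w) :
    ∃ S v' P, v = S ++ ph v' ++ P ∧ v' <:+: w ∧ S.length ≤ 27 ∧ P.length ≤ 27 := by
  obtain ⟨s, t, hst⟩ := h
  rw [List.append_assoc] at hst
  rcases split_ph w s (v ++ t) hst with ⟨w1, w2, h1, -, h2⟩ | ⟨w1, x, w2, P, Q, h1, -, -, h2, -, h3⟩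
  · obtain ⟨v', P, h3, ⟨r, hr⟩, h4⟩ := disc_init w2 v t h2
    refine ⟨[], v', P, ?_, ⟨w1, r, ?_⟩, by simp, h4⟩
    · rw [List.nil_append, h3]
    · rw [h1, List.append_assoc, hr]
  · have hQ : Q.length ≤ 27 := by
      have h4 := congrArg List.length h2
      rw [List.length_append] at h4
      have h5 := length_phL_le x
      omega
    rcases List.append_eq_append_iff.1 h3 with ⟨a, ha, -⟩ | ⟨c, hc, hc2⟩
    · refine ⟨v, [], [], ?_, List.nil_infix, ?_, by simp⟩
      · rw [ph_nil, List.append_nil, List.append_nil]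
      · rw [ha, List.length_append] at hQ
        omega
    · obtain ⟨v', P', h4, ⟨r, hr⟩, h5⟩ := disc_init w2 c t hc2.symm
      refine ⟨Q, v', P', ?_, ⟨w1 ++ [x], r, ?_⟩, hQ, h5⟩
      · rw [hc, h4, List.append_assoc]
      · rw [h1, List.append_assoc, hr, List.append_assoc, List.singleton_append]

/-- (D) the discrepancy of a factor of `φᵏ(x)` is at most 60.

PROOF. Induction on `k` for all `v`. `k = 0`: `|v| ≤ 1` and `abs_nu_le`. `k + 1`:
`ph^[k+1] [x] = ph (ph^[k] [x])`; by `factor_ph`, `v = S ++ ph v' ++ P`; `nu_append`, `nu_ph`,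
`abs_nu_le`, `abs_mu_le`: `|nu v| ≤ 27 + 60/10 + 27 = 60`. -/
theorem disc (k : ℕ) (x : Fin 2) (v : List (Fin 2)) (h : v <:+: ph^[k] [x]) : |nu v| ≤ 60 := by
  induction k generalizing v with
  | zero =>
    have h1 : v.length ≤ 1 := by
      have h2 := h.length_le
      simpa using h2
    have h3 := abs_nu_le v
    have h4 : (v.length : ℝ) ≤ 1 := by exact_mod_cast h1
    linarith
  | succ k ih =>
    rw [Function.iterate_succ_apply'] at h
    obtain ⟨S, v', P, h1, h2, h3, h4⟩ := factor_ph _ v h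
    have h5 := ih v' h2
    have h6 := abs_nu_le S
    have h7 := abs_nu_le P
    have h8 : (S.length : ℝ) ≤ 27 := by exact_mod_cast h3
    have h9 : (P.length : ℝ) ≤ 27 := by exact_mod_cast h4
    have h10 : |mu * nu v'| ≤ 1 / 10 * 60 := by
      rw [abs_mul]
      exact mul_le_mul abs_mu_le h5 (abs_nonneg _) (by norm_num)
    rw [h1, nu_append, nu_append, nu_ph]
    have h11 := abs_add_le (nu S + mu * nu v') (nu P)
    have h12 := abs_add_le (nu S) (mu * nu v')
    linarith

/-- An initial part of a power. -/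
private theorem disc_pow_init {α : Type*} (X : List α) (q : ℕ) (d w2 : List α)
    (h : d ++ w2 = (List.replicate q X).flatten) :
    ∃ (c : ℕ) (P : List α), c ≤ q ∧ d = (List.replicate c X).flatten ++ P ∧ P <:+: X := by
  induction q generalizing d w2 with
  | zero =>
    refine ⟨0, [], le_rfl, ?_, List.nil_infix⟩
    have h1 : d ++ w2 = [] := h
    have h2 := (List.append_eq_nil_iff.1 h1).1
    rw [h2]
    rfl
  | succ q ih =>
    rw [List.replicate_succ, List.flatten_cons] at h
    rcases List.append_eq_append_iff.1 h with ⟨a, ha, -⟩ | ⟨c', hc, hc2⟩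
    · refine ⟨0, d, Nat.zero_le _, rfl, ?_⟩
      exact ⟨[], a, by rw [List.nil_append, ha]⟩
    · obtain ⟨c, P, h1, h2, h3⟩ := ih c' w2 hc2.symm
      refine ⟨c + 1, P, by omega, ?_, h3⟩
      rw [hc, h2, List.replicate_succ, List.flatten_cons, List.append_assoc]

/-- Cutting a power `X^q`.

PROOF. Induction on `q` (for all `w1 v w2`). `q = 0`: all lists are empty. `q + 1`: the right
side is `X ++ X^q`. If `X.length ≤ w1.length` then `w1 = X ++ w1'` and
`w1' ++ v ++ w2 = X^q` (`List.append_eq_append_iff`): induction gives `q1', c, S, P`; take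
`q1 = q1' + 1`. Otherwise `X = w1 ++ X'`, `v ++ w2 = X' ++ X^q`, `q1 = 1`. If `v` is an initial
part of `X'`: `c = 0`, `S = v`, `P = []`. Else `v = X' ++ v'`, `v' ++ w2 = X^q`, and `v'` is
`X^c ++ P` with `c ≤ q` and `P` an initial part of `X` (auxiliary induction on `q`); `S = X'`. -/
theorem pow_cut {α : Type*} (X : List α) (q : ℕ) (w1 v w2 : List α)
    (h : w1 ++ v ++ w2 = (List.replicate q X).flatten) :
    ∃ (q1 c : ℕ) (S P : List α), q1 + c ≤ q ∧ w1 <+: (List.replicate q1 X).flatten ∧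
      v = S ++ (List.replicate c X).flatten ++ P ∧ S <:+: X ∧ P <:+: X := by
  induction q generalizing w1 v w2 with
  | zero =>
    have h1 : w1 ++ v ++ w2 = [] := h
    have h2 := (List.append_eq_nil_iff.1 (List.append_eq_nil_iff.1 h1).1)
    refine ⟨0, 0, [], [], le_rfl, ?_, ?_, List.nil_infix, List.nil_infix⟩
    · rw [h2.1]
      exact List.nil_prefix
    · rw [h2.2]
      rfl
  | succ q ih =>
    rw [List.replicate_succ, List.flatten_cons, List.append_assoc] at h
    rcases List.append_eq_append_iff.1 h with ⟨a, ha, ha2⟩ | ⟨c', hc, hc2⟩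
    · have hw1 : w1 <+: (List.replicate 1 X).flatten :=
        ⟨a, by rw [List.replicate_one, List.flatten_singleton, ha]⟩
      rcases List.append_eq_append_iff.1 ha2 with ⟨b, hb, -⟩ | ⟨d, hd, hd2⟩
      · refine ⟨1, 0, v, [], by omega, hw1, ?_, ⟨w1, b, ?_⟩, List.nil_infix⟩
        · rw [List.append_nil]
          exact (List.append_nil v).symm
        · rw [ha, hb, List.append_assoc]
      · obtain ⟨c, P, h1, h2, h3⟩ := disc_pow_init X q d w2 hd2.symm
        refine ⟨1, c, a, P, by omega, hw1, ?_, ⟨w1, [], ?_⟩, h3⟩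
        · rw [hd, h2, List.append_assoc]
        · rw [List.append_nil, ha]
    · obtain ⟨q1, c, S, P, h1, ⟨z, hz⟩, h3, h4, h5⟩ := ih c' v w2
        (by rw [List.append_assoc]; exact hc2.symm)
      refine ⟨q1 + 1, c, S, P, by omega, ⟨z, ?_⟩, h3, h4, h5⟩
      rw [hc, List.append_assoc, hz, List.replicate_succ, List.flatten_cons]

/-- The image of a power of `b`. -/
private theorem disc_iter_replicate (k q : ℕ) :
    ph^[k] (List.replicate q 1) = (List.replicate q (ph^[k] [1])).flatten := by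
  induction q with
  | zero => exact iter_nil k
  | succ q ih =>
    rw [List.replicate_succ, List.replicate_succ, List.flatten_cons, iter_cons, ih]

/-- The value of a power of `b`. -/
private theorem disc_nu_replicate (q : ℕ) : nu (List.replicate q 1) = q := by
  have h1 : (List.replicate q (1 : Fin 2)).count 0 = 0 := by
    rw [List.count_eq_zero]
    intro h
    have h2 := List.eq_of_mem_replicate h
    exact absurd h2 (by decide)
  unfold nu
  rw [List.count_replicate_self, h1]
  simp

/-- The letter `a` occurs in `φ(u)`. -/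
private theorem disc_zero_mem {u : List (Fin 2)} (hu : u ≠ []) : (0 : Fin 2) ∈ ph u := by
  obtain ⟨x, u', rfl⟩ := List.exists_cons_of_ne_nil hu
  rw [ph_cons]
  refine List.mem_append_left _ ?_
  have h0 : x = 0 ∨ x = 1 := by omega
  rcases h0 with rfl | rfl <;> decide

/-- (D'') a factor `φʲ(v)` of `φᵐ(b^q)` after the initial part `A`.

PROOF. If `v = []` take `q1 = q` (`nu [] = 0`, `A` is an initial part of the right side). Let
`v ≠ []`. Case `j ≤ m`: `rec_le` gives `ph^[m-j] (b^q) = w1 ++ v ++ w2`, `A = ph^[j] w1`. Let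
`X = ph^[m-j] [1]`; `ph^[m-j] (b^q) = X^q` (induction with `iter_append`). `pow_cut` gives
`q1, c, S, P` with `w1` an initial part of `X^q1 = ph^[m-j] (b^q1)`, hence `A` an initial part of
`ph^[m] (b^q1)`; `nu v = nu S + c * mu^(m-j) + nu P ≤ 60 + c + 60` by `disc`, `nu_iter`, `nu_b`,
`|mu| ≤ 1`, and `c ≤ q - q1`.
Case `m < j`: `rec_ge` gives `b^q = w1 ++ ph^[j-m] v ++ w2`; impossible, since for `v ≠ []` and
`1 ≤ h` the word `ph^[h] v = ph (ph^[h-1] v)` contains the letter 0 (`phL x` does), while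
all letters of `List.replicate q 1` are 1. -/
theorem disc_pow (m q j : ℕ) (A v P : List (Fin 2))
    (h : A ++ ph^[j] v ++ P = ph^[m] (List.replicate q 1)) :
    ∃ q1, q1 ≤ q ∧ A <+: ph^[m] (List.replicate q1 1) ∧ nu v ≤ 120 + ((q : ℝ) - q1) := by
  rcases eq_or_ne v [] with hv | hv
  · refine ⟨q, le_rfl, ⟨ph^[j] v ++ P, ?_⟩, ?_⟩
    · rw [← List.append_assoc]
      exact h
    · rw [hv, nu_nil, sub_self]
      norm_num
  rcases Nat.lt_or_ge m j with hmj | hmj
  · exfalso
    obtain ⟨w1, w2, h1, -, -⟩ := rec_ge hmj.le A v P _ hv h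
    have h2 : (0 : Fin 2) ∈ ph^[j - m] v := by
      obtain ⟨l, hl⟩ : ∃ l, j - m = l + 1 := ⟨j - m - 1, by omega⟩
      rw [hl, Function.iterate_succ_apply']
      exact disc_zero_mem fun h3 => hv (iter_eq_nil h3)
    have h3 : (0 : Fin 2) ∈ List.replicate q 1 := by
      rw [h1]
      exact List.mem_append_left _ (List.mem_append_right _ h2)
    exact absurd (List.eq_of_mem_replicate h3) (by decide)
  · obtain ⟨w1, w2, h1, h2, -⟩ := rec_le hmj A v P _ hv h
    have h3 : w1 ++ v ++ w2 = (List.replicate q (ph^[m - j] [1])).flatten := by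
      rw [← disc_iter_replicate, h1]
    obtain ⟨q1, c, S, P', h4, ⟨z, hz⟩, h5, h6, h7⟩ := pow_cut _ q w1 v w2 h3
    refine ⟨q1, by omega, ⟨ph^[j] z, ?_⟩, ?_⟩
    · rw [← disc_iter_replicate] at hz
      have h8 : m = j + (m - j) := by omega
      rw [h2, ← iter_append, hz, h8, Function.iterate_add_apply, ← h8]
    · have h8 := (abs_le.1 (disc _ _ _ h6)).2
      have h9 := (abs_le.1 (disc _ _ _ h7)).2
      have h10 : nu ((List.replicate c (ph^[m - j] [1])).flatten) ≤ c := by
        rw [← disc_iter_replicate, nu_iter, disc_nu_replicate]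
        have h11 : |mu ^ (m - j)| ≤ 1 := by
          rw [abs_pow]
          exact pow_le_one₀ (abs_nonneg _) (abs_mu_le.trans (by norm_num))
        have h12 := (abs_le.1 h11).2
        have h13 : (0 : ℝ) ≤ c := Nat.cast_nonneg c
        nlinarith
      have h11 : (q1 : ℝ) + c ≤ q := by exact_mod_cast h4
      rw [h5, nu_append, nu_append]
      linarith

end SclIrr.W
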