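import Pool.Agent.Lib.MP_ed1a61_al_W.Defs

/-! # The substitution on signed words and on the free group -/

set_option autoImplicit false

namespace SclIrr.W

/-- The image of a signed letter begins with this letter. -/
theorem head_phS1 (p : Fin 2 × Bool) : (phS1 p).head? = some p := by
  revert p
  decide

/-- The image of a signed letter ends with this letter. -/
theorem last_phS1 (p : Fin 2 × Bool) : (phS1 p).getLast? = some p := by
  revert p
  decide

/-- The first letter is preserved. -/
theorem head_phS (L : List (Fin 2 × Bool)) : (phS L).head? = L.head? := by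
  cases L with
  | nil => rfl
  | cons p L => rw [phS_cons, List.head?_append, head_phS1, Option.some_or, List.head?_cons]

/-- The last letter is preserved. -/
theorem last_phS (L : List (Fin 2 × Bool)) : (phS L).getLast? = L.getLast? := by
  induction L using List.reverseRecOn with
  | nil => rfl
  | append_singleton L p _ =>
    rw [phS_append, phS_single, List.getLast?_append, last_phS1, Option.some_or,
      List.getLast?_append, List.getLast?_singleton, Option.some_or]

theorem head_phS_iter (n : ℕ) (L : List (Fin 2 × Bool)) : (phS^[n] L).head? = L.head? := by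
  induction n with
  | zero => rfl
  | succ n ih => rw [Function.iterate_succ_apply', head_phS, ih]

theorem last_phS_iter (n : ℕ) (L : List (Fin 2 × Bool)) :
    (phS^[n] L).getLast? = L.getLast? := by
  induction n with
  | zero => rfl
  | succ n ih => rw [Function.iterate_succ_apply', last_phS, ih]

private theorem hom_red1 (p : Fin 2 × Bool) : FreeGroup.IsReduced (phS1 p) := by
  have h1 : ∀ a ∈ phS1 p, a.2 = p.2 := by
    revert p
    decide
  unfold FreeGroup.IsReduced
  rw [List.isChain_iff_forall_rel_of_append_cons_cons]
  intro a b A B h _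
  rw [h1 a (by rw [h]; simp), h1 b (by rw [h]; simp)]

/-- Reduced words are mapped to reduced words.

PROOF. Induction on `L`. `phS1 p` is reduced: all its letters have the same sign. For
`p :: q :: L`: `phS (p :: q :: L) = phS1 p ++ phS (q :: L)`; by `List.isChain_append` it remains
to check the junction: the last letter of `phS1 p` is `p` (`last_phS1`), the first letter of
`phS (q :: L)` is `q` (`head_phS`), and `p.1 = q.1 → p.2 = q.2` as `p :: q :: L` is reduced. -/
theorem isReduced_phS {L : List (Fin 2 × Bool)} (h : FreeGroup.IsReduced L) :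
    FreeGroup.IsReduced (phS L) := by
  induction L with
  | nil => exact FreeGroup.IsReduced.nil
  | cons p L ih =>
    have hL : FreeGroup.IsReduced L := (List.isChain_cons.1 h).2
    rw [phS_cons]
    refine (List.isChain_append).2 ⟨hom_red1 p, ih hL, ?_⟩
    intro x hx y hy
    rw [last_phS1] at hx
    rw [head_phS] at hy
    have hx' : p = x := by simpa using hx
    subst hx'
    cases L with
    | nil => simp at hy
    | cons q L =>
      have hy' : q = y := by simpa using hy
      subst hy'
      exact (FreeGroup.isReduced_cons_cons.1 h).1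

/-- The endomorphism `φ` of the free group. -/
def phi : FreeGroup (Fin 2) →* FreeGroup (Fin 2) :=
  FreeGroup.lift (fun x => FreeGroup.mk (pos (phL x)))

theorem phi_of (x : Fin 2) : phi (FreeGroup.of x) = FreeGroup.mk (pos (phL x)) := by
  simp [phi]

/-- `φ(mk L) = mk (φ L)`.

PROOF. Induction on `L`: `mk (p :: L) = mk [p] * mk L` (`FreeGroup.mul_mk`), and for one letter
`mk [(x, true)] = of x`, `mk [(x, false)] = (of x)⁻¹`, `FreeGroup.inv_mk`. -/
theorem phi_mk (L : List (Fin 2 × Bool)) : phi (FreeGroup.mk L) = FreeGroup.mk (phS L) := by
  induction L with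
  | nil => exact map_one phi
  | cons p L ih =>
    have h1 : FreeGroup.mk (p :: L) = FreeGroup.mk [p] * FreeGroup.mk L := by
      rw [FreeGroup.mul_mk]
      rfl
    have h2 : phi (FreeGroup.mk [p]) = FreeGroup.mk (phS1 p) := by
      obtain ⟨x, s⟩ := p
      cases s with
      | true => exact phi_of x
      | false =>
        have h3 : FreeGroup.mk [(x, false)] = (FreeGroup.of x)⁻¹ := rfl
        rw [h3, map_inv, phi_of, FreeGroup.inv_mk]
        rfl
    rw [h1, map_mul, ih, h2, FreeGroup.mul_mk, phS_cons]

/-- The reduced word of `φ(g)`.

PROOF. `g = mk g.toWord` (`FreeGroup.mk_toWord`), `phi_mk`, `FreeGroup.toWord_mk`,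
`FreeGroup.IsReduced.reduce_eq` for `isReduced_phS FreeGroup.isReduced_toWord`. -/
theorem phi_toWord (g : FreeGroup (Fin 2)) : (phi g).toWord = phS g.toWord := by
  have h1 := phi_mk g.toWord
  rw [FreeGroup.mk_toWord] at h1
  rw [h1, FreeGroup.toWord_mk]
  exact (isReduced_phS FreeGroup.isReduced_toWord).reduce_eq

/-- PROOF. `injective_iff_map_eq_one`: if `phi g = 1` then `phS g.toWord = []`, so
`g.toWord = []` (`head_phS`), `g = 1` (`FreeGroup.toWord_eq_nil_iff`). -/
theorem phi_injective : Function.Injective phi := by
  rw [injective_iff_map_eq_one]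
  intro g hg
  have h1 := phi_toWord g
  rw [hg, FreeGroup.toWord_one] at h1
  have h2 := head_phS g.toWord
  rw [← h1] at h2
  rw [← FreeGroup.toWord_eq_nil_iff]
  exact List.head?_eq_none_iff.1 (by rw [← h2]; rfl)

/-- `φ(g)` as an iterate. -/
theorem phi_iter_toWord (n : ℕ) (g : FreeGroup (Fin 2)) :
    (phi^[n] g).toWord = phS^[n] g.toWord := by
  induction n with
  | zero => rfl
  | succ n ih => rw [Function.iterate_succ_apply', Function.iterate_succ_apply', phi_toWord, ih]

end SclIrr.W
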