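import Pool.Agent.Lib.MP_ed1a61_al_W.Rec

/-! # The relation `Val`: shift, concatenation, splitting -/

set_option autoImplicit false

namespace SclIrr.W

/-- (V0)

PROOF. Induction on `h`. base: `phS (pos (ph^[i] v)) = pos (ph (ph^[i] v)) =
pos (ph^[i+1] v)` (`phS_pos`, `Function.iterate_succ_apply'`). step: replace `U` by `phS U`
(`phS_append`). -/
theorem val_shift {i k : ℕ} {M : List (Fin 2 × Bool)} {p : ℝ} (h : Val i M k p) :
    Val (i + 1) (phS M) (k + 1) p := by
  induction h with
  | base v M p hM hp =>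
    exact Val.base (i + 1) v (phS M) p (by rw [hM, phS_pos, ← Function.iterate_succ_apply' ph])
      hp
  | step M k p U j v M' p' h hM hp ih =>
    refine Val.step (i + 1) (phS M) (k + 1) p (phS U) (j + 1) v (phS M') p' ih ?_ hp
    rw [hM, phS_append, phS_append, phS_pos, ← Function.iterate_succ_apply' ph]

/-- The trivial value `-C0`.

PROOF. base at `i` with `v = []` (value 0), then step with `U = M`, `v = []`, `j = k`. -/
theorem val_triv (i : ℕ) (M : List (Fin 2 × Bool)) (k : ℕ) : Val i M k (-C0) := by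
  refine Val.step i [] i 0 M k [] M (-C0) (Val.base i [] [] 0 ?_ nu_nil.symm) ?_ ?_
  · rw [iter_nil, pos_nil]
  · rw [iter_nil, pos_nil]
    simp
  · rw [nu_nil]
    ring

private theorem val_app_block {i j : ℕ} {M : List (Fin 2 × Bool)} {p : ℝ} (h : Val i M j p)
    (v' : List (Fin 2)) : Val i (M ++ pos (ph^[j] v')) j (p + nu v') := by
  cases h with
  | base v _ _ hM hp =>
    exact Val.base i (v ++ v') _ _ (by rw [hM, iter_append, pos_append]) (by rw [hp, nu_append])
  | step M k p U _ v _ _ h hM hp =>
    refine Val.step i M k p U j (v ++ v') _ _ h ?_ ?_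
    · rw [hM, iter_append, pos_append]
      simp only [List.append_assoc]
    · rw [hp, nu_append]
      ring

/-- (V1)

PROOF. First the case of a block on the right: `Val i M j p → Val i (M ++ pos (ph^[j] v')) j
(p + nu v')`: cases on the first: base `M = pos (ph^[i] v)`: base with `v ++ v'`
(`iter_append`, `pos_append`, `nu_append`); step: the last block `v` is replaced by `v ++ v'`.
Then induction on `h'`: base is this case, step: step with the same `U`, `j`, `v`
(`List.append_assoc`). -/
theorem val_append {i j k : ℕ} {M M' : List (Fin 2 × Bool)} {p q : ℝ} (h : Val i M j p)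
    (h' : Val j M' k q) : Val i (M ++ M') k (p + q) := by
  induction h' with
  | base v M' q hM hq =>
    rw [hM, hq]
    exact val_app_block h v
  | step M1 k0 p0 U k v M' q h1 hM hq ih =>
    refine Val.step i (M ++ M1) k0 (p + p0) U k v _ _ ih ?_ ?_
    · rw [hM]
      simp only [List.append_assoc]
    · rw [hq]
      ring

/-- A value followed by an arbitrary piece and an empty block. -/
private theorem val_end {i k j : ℕ} {M U M' : List (Fin 2 × Bool)} {p : ℝ} (h : Val i M k p)
    (hM : M' = M ++ U) : Val i M' j (p - C0) := by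
  refine Val.step i M k p U j [] M' _ h ?_ ?_
  · rw [hM, iter_nil, pos_nil, List.append_nil]
  · rw [nu_nil]
    ring

/-- An arbitrary piece followed by a block. -/
private theorem val_start (j k : ℕ) {U M' : List (Fin 2 × Bool)} (v : List (Fin 2))
    (hM : M' = U ++ pos (ph^[k] v)) : Val j M' k (nu v - C0) := by
  refine Val.step j [] j 0 U k v M' _ (Val.base j [] [] 0 ?_ nu_nil.symm) ?_ ?_
  · rw [iter_nil, pos_nil]
  · rw [hM, List.nil_append]
  · ring

private theorem nu_mid_le (v1 v2 : List (Fin 2)) (x : Fin 2) :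
    nu (v1 ++ x :: v2) ≤ nu v1 + nu v2 + 1 := by
  rw [nu_append, ← List.singleton_append (x := x) (l := v2), nu_append]
  have := nu_single_le x
  linarith

private theorem val_split_aux {i k : ℕ} {N : List (Fin 2 × Bool)} {p : ℝ} (h : Val i N k p) :
    ∀ (j : ℕ) (L L' : List (Fin 2 × Bool)), L ++ L' = N →
      ∃ p' p'' : ℝ, Val i L j p' ∧ Val j L' k p'' ∧ p ≤ p' + p'' + C3 := by
  have c0 : C0 = 120 := rfl
  have c3 : C3 = 241 := rfl
  induction h with
  | base v M p hM hp =>
    intro j L L' hL
    obtain ⟨A, B, h1, h2, h3⟩ := pos_eq_append (hL.trans hM)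
    rcases split_iter i v A B h1.symm with ⟨hv, -, -⟩ | ⟨v1, x, v2, P, Q, hv, -, hA, hB⟩
    · refine ⟨-C0, -C0, val_triv i L j, val_triv j L' i, ?_⟩
      rw [hp, hv, nu_nil]
      linarith
    · refine ⟨nu v1 - C0, nu v2 - C0, ?_, ?_, ?_⟩
      · exact val_end (U := pos P) (Val.base i v1 _ _ rfl rfl) (by rw [h2, hA, pos_append])
      · exact val_start j i (U := pos Q) v2 (by rw [h3, hB, pos_append])
      · have := nu_mid_le v1 v2 x
        rw [hp, hv]
        linarith
  | step M k0 p0 U k v M' p hval hM hp ih =>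
    intro j L L' hL
    have hL1 : L ++ L' = M ++ (U ++ pos (ph^[k] v)) := by rw [hL, hM, List.append_assoc]
    rcases List.append_eq_append_iff.1 hL1 with ⟨M2, h1, h2⟩ | ⟨U1, h1, h2⟩
    · obtain ⟨p', p'', hp1, hp2, hp3⟩ := ih j L M2 h1.symm
      refine ⟨p', p'' + nu v - C0, hp1, Val.step j M2 k0 p'' U k v L' _ hp2 ?_ rfl, ?_⟩
      · rw [h2, List.append_assoc]
      · linarith
    · rcases List.append_eq_append_iff.1 h2 with ⟨L2, h3, h4⟩ | ⟨U2, h3, h4⟩
      · obtain ⟨A, B, h5, h6, h7⟩ := pos_eq_append h4.symm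
        rcases split_iter k v A B h5.symm with ⟨hv, hA, -⟩ | ⟨v1, x, v2, P, Q, hv, -, hA, hB⟩
        · refine ⟨p0 - C0, -C0, val_end (U := U1) hval h1, val_triv j L' k, ?_⟩
          rw [hp, hv, nu_nil]
          linarith
        · refine ⟨p0 + nu v1 - C0 - C0, nu v2 - C0, ?_, ?_, ?_⟩
          · refine val_end (U := pos P) (Val.step i M k0 p0 U k v1 _ _ hval rfl rfl) ?_
            rw [h1, h3, h6, hA, pos_append]
            simp only [List.append_assoc]
          · exact val_start j k (U := pos Q) v2 (by rw [h7, hB, pos_append])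
          · have := nu_mid_le v1 v2 x
            rw [hp, hv]
            linarith
      · refine ⟨p0 - C0, nu v - C0, val_end (U := U1) hval h1,
          val_start j k (U := U2) v h4, ?_⟩
        linarith

/-- (V3)

PROOF. Induction on `h` (generalise the word `L ++ L'` by an equation, `L L'` arbitrary).
base: `L ++ L' = pos (ph^[i] v)`, `p = nu v`, `k = i`. `pos_eq_append`, then `split_iter i v`:
- `v = []`, `L = L' = []`: `p' = p'' = -C0` (`val_triv`), `0 ≤ -2 C0 + C3`.
- `v = v1 ++ x :: v2`, `P ++ Q = ph^[i] [x]`, `L = pos (ph^[i] v1 ++ P)`,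
  `L' = pos (Q ++ ph^[i] v2)`: `p' = nu v1 - C0` (base `v1`, step `U = pos P`, block `[]` at
  level `j`), `p'' = nu v2 - C0` (base `[]` at `j`, step `U = pos Q`, block `v2` at level `i`);
  `nu v = nu v1 + nu [x] + nu v2`, `nu [x] ≤ 1`.
step: `L ++ L' = M ++ U ++ pos (ph^[k] v)`, `Val i M k0 p0`, `p = p0 + nu v - C0`. Use
`List.append_eq_append_iff` (twice) for the place of the cut:
- `M = L ++ M2`, `L' = M2 ++ U ++ pos (ph^[k] v)`: induction for `L ++ M2`, then step.
- `L = M ++ U1`, `U = U1 ++ U2`, `L' = U2 ++ pos (ph^[k] v)`: `p' = p0 - C0` (step, `U = U1`,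
  block `[]` at level `j`), `p'' = nu v - C0`.
- `L = M ++ U ++ L2`, `L2 ++ L' = pos (ph^[k] v)`: `split_iter k v`; `v = []`: `L2 = L' = []`,
  `p' = p0 - C0`, `p'' = -C0`. `v = v1 ++ x :: v2`: `p' = p0 + nu v1 - 2 C0` (step with `U`, `v1`
  at level `k`, then step with `U = pos P`, block `[]` at level `j`), `p'' = nu v2 - C0`;
  sum `= p - nu [x] - 2 C0`. -/
theorem val_split {i k : ℕ} {L L' : List (Fin 2 × Bool)} {p : ℝ} (h : Val i (L ++ L') k p)
    (j : ℕ) : ∃ p' p'' : ℝ, Val i L j p' ∧ Val j L' k p'' ∧ p ≤ p' + p'' + C3 :=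
  val_split_aux h j L L' rfl

private theorem pos_getLast {w : List (Fin 2)} {x : Fin 2}
    (h : (pos w).getLast? = some (x, false)) : False := by
  have h1 := mem_pos (List.mem_of_getLast? h)
  simp at h1

private theorem val_split_neg_aux {i k : ℕ} {N : List (Fin 2 × Bool)} {p : ℝ}
    (h : Val i N k p) : ∀ (j : ℕ) (x y : Fin 2) (L L' : List (Fin 2 × Bool)), L ++ L' = N →
      L.getLast? = some (x, false) → L'.head? = some (y, false) →
      ∃ p' p'' : ℝ, Val i L j p' ∧ Val j L' k p'' ∧ p ≤ p' + p'' + C0 := by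
  induction h with
  | base v M p hM hp =>
    intro j x y L L' hL hx hy
    obtain ⟨A, B, h1, h2, h3⟩ := pos_eq_append (hL.trans hM)
    rw [h2] at hx
    exact (pos_getLast hx).elim
  | step M k0 p0 U k v M' p hval hM hp ih =>
    intro j x y L L' hL hx hy
    have hL1 : L ++ L' = M ++ (U ++ pos (ph^[k] v)) := by rw [hL, hM, List.append_assoc]
    rcases List.append_eq_append_iff.1 hL1 with ⟨M2, h1, h2⟩ | ⟨U1, h1, h2⟩
    · cases M2 with
      | nil =>
        rw [List.append_nil] at h1
        refine ⟨p0 - C0, nu v - C0, val_end (U := []) hval (by rw [h1, List.append_nil]),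
          val_start j k (U := U) v (by rw [h2, List.nil_append]), ?_⟩
        linarith
      | cons z M3 =>
        have hz : (z :: M3).head? = some (y, false) := by
          rw [h2] at hy
          simpa using hy
        obtain ⟨p', p'', hp1, hp2, hp3⟩ := ih j x y L (z :: M3) h1.symm hx hz
        refine ⟨p', p'' + nu v - C0, hp1, Val.step j _ k0 p'' U k v L' _ hp2 ?_ rfl, ?_⟩
        · rw [h2, List.append_assoc]
        · linarith
    · rcases List.append_eq_append_iff.1 h2 with ⟨L2, h3, h4⟩ | ⟨U2, h3, h4⟩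
      · rcases List.eq_nil_or_concat L2 with h5 | ⟨L3, z, h5⟩
        · rw [h5, List.nil_append] at h4
          refine ⟨p0 - C0, nu v - C0, val_end (U := U1) hval h1,
            val_start j k (U := []) v (by rw [← h4, List.nil_append]), ?_⟩
          linarith
        · obtain ⟨A, B, h6, h7, h8⟩ := pos_eq_append h4.symm
          have h9 : L.getLast? = L2.getLast? := by
            rw [h1, h3, h5]
            simp
          rw [h9, h7] at hx
          exact (pos_getLast hx).elim
      · refine ⟨p0 - C0, nu v - C0, val_end (U := U1) hval h1,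
          val_start j k (U := U2) v h4, ?_⟩
        linarith

/-- (V2)

PROOF. The same induction. base: impossible, the last letter of `L` would be positive
(`pos_eq_append`, `mem_pos`). step, `L ++ L' = M ++ U ++ pos (ph^[k] v)`:
- cut in `M`, `M = L ++ M2`: if `M2 ≠ []` its first letter is that of `L'`; induction, then
  step. If `M2 = []`: `L = M`, `L' = U ++ pos (ph^[k] v)`: as the next case with `U1 = []`.
- cut in `U`: `p' = p0 - C0`, `p'' = nu v - C0`, sum `= p - C0`.
- `L = M ++ U ++ L2`, `L2 ++ L' = pos (ph^[k] v)`: if `L2 ≠ []` the last letter of `L` is a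
  letter of `pos _`, positive: impossible. If `L2 = []`: previous case with `U2 = []`. -/
theorem val_split_neg {i k : ℕ} {L L' : List (Fin 2 × Bool)} {p : ℝ}
    (h : Val i (L ++ L') k p) (j : ℕ) (x y : Fin 2) (hL : L.getLast? = some (x, false))
    (hL' : L'.head? = some (y, false)) :
    ∃ p' p'' : ℝ, Val i L j p' ∧ Val j L' k p'' ∧ p ≤ p' + p'' + C0 :=
  val_split_neg_aux h j x y L L' rfl hL hL'

end SclIrr.W
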