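import Pool.Agent.Lib.MP_ed1a61_al_W.Disc
import Pool.Agent.Lib.MP_ed1a61_al_W.ValA

/-! # Upper bounds for the values -/

set_option autoImplicit false

namespace SclIrr.W

/-- The iterated image of a negative letter. -/
private theorem phS_iter_neg (m : ℕ) (x : Fin 2) :
    phS^[m] [(x, false)] = FreeGroup.invRev (pos (ph^[m] [x])) := by
  induction m with
  | zero => rfl
  | succ m ih =>
    rw [Function.iterate_succ_apply', Function.iterate_succ_apply', ih, ← phS_pos, phS_invRev]

/-- If all positive blocks of `M` have value at most `C0` then so has `M`.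

PROOF. Induction on `h`: base: `p = nu v ≤ C0`. step: the blocks of `M` are blocks of `M'`, so
`p ≤ C0` for `M`, and `nu v ≤ C0` gives `p + nu v - C0 ≤ C0`. -/
theorem val_le {i k : ℕ} {M : List (Fin 2 × Bool)} {p : ℝ} (h : Val i M k p)
    (hM : ∀ (j : ℕ) (v : List (Fin 2)), pos (ph^[j] v) <:+: M → nu v ≤ C0) : p ≤ C0 := by
  induction h with
  | base v M p hM' hp =>
    rw [hp]
    exact hM i v (by rw [hM'])
  | step M k p U j v M' p' h hM' hp ih =>
    have h1 : p ≤ C0 := ih (fun j' v' h' => hM j' v' (h'.trans ⟨[], U ++ pos (ph^[j] v), by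
      rw [hM', List.nil_append, List.append_assoc]⟩))
    have h2 : nu v ≤ C0 := hM j v ⟨M ++ U, [], by rw [hM', List.append_nil]⟩
    rw [hp]
    linarith

/-- (V4)

PROOF. `val_le`. Let `pos (ph^[j] v)` be a factor of `M`, hence of `phS^[m] [y]`. `v = []`:
`nu v = 0`. Let `v ≠ []`. If `y = (x, true)`: `phS^[m] [y] = pos (ph^[m] [x])` (`phS_iter_pos`),
so `ph^[j] v` is a factor of `ph^[m] [x]` (`pos_eq_append`, `pos_injective`); `j ≤ m`: by
`rec_le`, `v` is a factor of `ph^[m-j] [x]`, `nu v ≤ 60` (`disc`); `m < j`: by `rec_ge`,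
`ph^[j-m] v` is a factor of `[x]`, but its length is at least 22 (`length_ph_ge`, and
`ph^[j-m-1] v ≠ []` by `iter_eq_nil`). If `y = (x, false)`: all letters of `phS^[m] [y]` are
negative (induction on `m`: `phS1 (x, false) = invRev (pos _)`, `invRev_pos_neg`), but
`pos (ph^[j] v)` is nonempty (`iter_eq_nil`) with positive letters. -/
theorem val_letter {i k m : ℕ} {M : List (Fin 2 × Bool)} {p : ℝ} (h : Val i M k p)
    (y : Fin 2 × Bool) (hM : M <:+: phS^[m] [y]) : p ≤ C0 := by
  have hC : C0 = 120 := rfl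
  refine val_le h (fun j v hv => ?_)
  have hv2 : pos (ph^[j] v) <:+: phS^[m] [y] := hv.trans hM
  rcases eq_or_ne v [] with hv0 | hv0
  · rw [hv0, nu_nil, hC]
    norm_num
  have hpne : ph^[j] v ≠ [] := fun h0 => hv0 (iter_eq_nil h0)
  obtain ⟨x, s⟩ := y
  cases s with
  | true =>
    have h1 : phS^[m] [(x, true)] = pos (ph^[m] [x]) := phS_iter_pos m [x]
    rw [h1] at hv2
    obtain ⟨A, B, hAB⟩ := hv2
    obtain ⟨u, u', e1, e2, e3⟩ := pos_eq_append hAB
    obtain ⟨a, c, f1, f2, f3⟩ := pos_eq_append e2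
    have f4 : c = ph^[j] v := pos_injective f3.symm
    have h2 : a ++ ph^[j] v ++ u' = ph^[m] [x] := by rw [e1, f1, f4]
    rcases Nat.lt_or_ge m j with hmj | hmj
    · exfalso
      obtain ⟨w1, w2, h3, -, -⟩ := rec_ge hmj.le a v u' _ hv0 h2
      obtain ⟨l, hl⟩ : ∃ l, j - m = l + 1 := ⟨j - m - 1, by omega⟩
      rw [hl, Function.iterate_succ_apply'] at h3
      have h4 := length_ph_ge (ph^[l] v)
      have h5 : ph^[l] v ≠ [] := fun h0 => hv0 (iter_eq_nil h0)
      have h6 := List.length_pos_of_ne_nil h5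
      have h7 := congrArg List.length h3
      simp only [List.length_append, List.length_singleton] at h7
      omega
    · obtain ⟨w1, w2, h3, -, -⟩ := rec_le hmj a v u' _ hv0 h2
      have h4 := disc (m - j) x v ⟨w1, w2, h3.symm⟩
      have h5 := (abs_le.1 h4).2
      rw [hC]
      linarith
  | false =>
    exfalso
    have h1 : ∀ z ∈ phS^[m] [(x, false)], z.2 = false := by
      intro z hz
      rw [phS_iter_neg] at hz
      exact invRev_pos_neg hz
    obtain ⟨z, t, hz⟩ := List.exists_cons_of_ne_nil hpne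
    have h3 : (z, true) ∈ pos (ph^[j] v) := by
      rw [hz]
      exact List.mem_cons_self
    have h4 := h1 _ (hv2.subset h3)
    simp at h4

/-- (V5)

PROOF. Induction on `h` for all `q`. base: `pos (ph^[i] v)` is an initial part of
`pos (ph^[m] (b^q))`, so `ph^[i] v ++ P = ph^[m] (b^q)`; `disc_pow` with `A = []` gives
`nu v ≤ 120 + q - q1 ≤ C0 + q`. step: `M ++ U ++ pos (ph^[j] v)` is an initial part:
`M ++ U = pos A`, `A ++ ph^[j] v ++ P = ph^[m] (b^q)` (`pos_eq_append`, `pos_injective`);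
`disc_pow` gives `q1 ≤ q` with `A` an initial part of `ph^[m] (b^q1)` and
`nu v ≤ 120 + q - q1`. `M` is an initial part of `pos A`, hence of `pos (ph^[m] (b^q1))`, so
by induction `p ≤ C0 + q1`, and `p + nu v - C0 ≤ C0 + q`. -/
theorem val_pow {i k m q : ℕ} {M : List (Fin 2 × Bool)} {p : ℝ} (h : Val i M k p)
    (hM : M <+: pos (ph^[m] (List.replicate q 1))) : p ≤ C0 + q := by
  have hC : C0 = 120 := rfl
  induction h generalizing q with
  | base v M p hM' hp =>
    obtain ⟨t, ht⟩ := hM
    rw [hM'] at ht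
    obtain ⟨u, u', e1, e2, e3⟩ := pos_eq_append ht
    have e4 : u = ph^[i] v := pos_injective e2.symm
    obtain ⟨q1, h1, -, h3⟩ := disc_pow m q i [] v u' (by rw [e1, e4, List.nil_append])
    have h4 : (0 : ℝ) ≤ q1 := Nat.cast_nonneg q1
    rw [hp, hC]
    linarith
  | step M k p U j v M' p' h hM' hp ih =>
    obtain ⟨t, ht⟩ := hM
    rw [hM'] at ht
    obtain ⟨u, u', e1, e2, e3⟩ := pos_eq_append ht
    obtain ⟨a, c, f1, f2, f3⟩ := pos_eq_append e2
    obtain ⟨b, d, g1, g2, g3⟩ := pos_eq_append f2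
    have f4 : c = ph^[j] v := pos_injective f3.symm
    obtain ⟨q1, h1, h2, h3⟩ := disc_pow m q j a v u' (by rw [e1, f1, f4])
    have h4 : M <+: pos (ph^[m] (List.replicate q1 1)) := by
      obtain ⟨z, hz⟩ := h2
      refine ⟨pos d ++ pos z, ?_⟩
      rw [← hz, g1, pos_append, pos_append, g2, List.append_assoc]
    have h5 := ih h4
    rw [hp]
    rw [hC] at h5 ⊢
    linarith

/-- The value of the empty word.

PROOF. Induction on `h`. base: `i = k`, `ph^[i] v = []`, so `v = []` (`iter_eq_nil`) and `p = 0`.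
step: `M = []`, `U = []`, `v = []`: `p ≤ 0` for `M`, so `p' = p - C0 ≤ -C0`. -/
theorem val_nil {i k : ℕ} {M : List (Fin 2 × Bool)} {p : ℝ} (h : Val i M k p) (hM : M = []) :
    p ≤ 0 ∧ (i ≠ k → p ≤ -C0) := by
  have hC : C0 = 120 := rfl
  induction h with
  | base v M p hM' hp =>
    have h1 : v = [] := iter_eq_nil (pos_eq_nil (hM'.symm.trans hM))
    rw [hp, h1, nu_nil]
    exact ⟨le_rfl, fun h2 => absurd rfl h2⟩
  | step M k p U j v M' p' h hM' hp ih =>
    rw [hM] at hM'
    obtain ⟨h1, h2⟩ := List.append_eq_nil_iff.1 hM'.symm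
    obtain ⟨h3, -⟩ := List.append_eq_nil_iff.1 h1
    have h4 : v = [] := iter_eq_nil (pos_eq_nil h2)
    have h5 := (ih h3).1
    rw [hp, h4, nu_nil, hC]
    exact ⟨by linarith, fun _ => by linarith⟩

/-- The value of a negative nonempty word.

PROOF. Induction on `h`. All blocks are empty: the letters of `pos (ph^[j] v)` are positive
(`mem_pos`), so `ph^[j] v = []`, `v = []`, `nu v = 0`. base: `M = []`, `p = 0`. step: `p ≤ 0` for
`M` (a part of `M'`), so `p' = p - C0 ≤ -C0 ≤ 0`. -/
theorem val_neg {i k : ℕ} {M : List (Fin 2 × Bool)} {p : ℝ} (h : Val i M k p)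
    (hM : ∀ y ∈ M, y.2 = false) : p ≤ 0 ∧ (M ≠ [] → p ≤ -C0) := by
  have hC : C0 = 120 := rfl
  induction h with
  | base v M p hM' hp =>
    have h0 : ph^[i] v = [] := by
      by_contra hne
      obtain ⟨z, t, hz⟩ := List.exists_cons_of_ne_nil hne
      have h1 : (z, true) ∈ M := by
        rw [hM', hz]
        exact List.mem_cons_self
      have h2 := hM _ h1
      simp at h2
    have h1 : v = [] := iter_eq_nil h0
    rw [hp, h1, nu_nil]
    refine ⟨le_rfl, fun h2 => absurd ?_ h2⟩
    rw [hM', h0, pos_nil]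
  | step M k p U j v M' p' h hM' hp ih =>
    have h0 : ph^[j] v = [] := by
      by_contra hne
      obtain ⟨z, t, hz⟩ := List.exists_cons_of_ne_nil hne
      have h1 : (z, true) ∈ M' := by
        rw [hM', hz]
        exact List.mem_append_right _ List.mem_cons_self
      have h2 := hM _ h1
      simp at h2
    have h1 : v = [] := iter_eq_nil h0
    have h2 : p ≤ 0 := (ih (fun y hy => hM y (by
      rw [hM', List.append_assoc]
      exact List.mem_append_left _ hy))).1
    rw [hp, h1, nu_nil, hC]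
    exact ⟨by linarith, fun _ => by linarith⟩

end SclIrr.W
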