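import Pool.Agent.Lib.MP_ed1a61_al_W.Hom
import Pool.Agent.Lib.MP_ed1a61_al_W.ValB

/-! # The functions `K` -/

set_option autoImplicit false

namespace SclIrr.W

private theorem ka_bd (L : List (Fin 2 × Bool)) (n : ℕ) : ∀ (i j : ℕ) (p : ℝ),
    Val i (phS^[n] L) j p → p ≤ L.length * (C0 + C3) + C0 := by
  induction L with
  | nil =>
    intro i j p h
    have h1 := (val_nil h (phS_iter_nil n)).1
    rw [List.length_nil, Nat.cast_zero, zero_mul, zero_add]
    have h2 : (0 : ℝ) ≤ C0 := by
      unfold C0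
      norm_num
    linarith
  | cons y L ih =>
    intro i j p h
    rw [← List.singleton_append, phS_iter_append] at h
    obtain ⟨p', p'', h1, h2, h3⟩ := val_split h 0
    have h4 := val_letter h1 y (List.infix_refl _)
    have h5 := ih 0 j p'' h2
    rw [List.length_cons]
    push_cast
    linarith

private theorem ka_shift {i k : ℕ} {M : List (Fin 2 × Bool)} {p : ℝ} (h : Val i M k p)
    (m : ℕ) : Val (i + m) (phS^[m] M) (k + m) p := by
  induction m with
  | zero => exact h
  | succ m ih =>
    rw [Function.iterate_succ_apply']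
    exact val_shift ih

private theorem ka_neg {L : List (Fin 2 × Bool)} (h : ∀ y ∈ L, y.2 = false) (n : ℕ) :
    ∀ y ∈ phS^[n] L, y.2 = false := by
  induction n with
  | zero => exact h
  | succ n ih =>
    intro y hy
    rw [Function.iterate_succ_apply', phS, List.mem_flatMap] at hy
    obtain ⟨z, hz, hyz⟩ := hy
    have h1 := ih z hz
    rw [phS1, h1, if_neg (by simp)] at hyz
    exact invRev_pos_neg hyz

private theorem ka_rep (n : ℕ) :
    List.replicate n ((1 : Fin 2), true) = pos (List.replicate n 1) := by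
  rw [pos, List.map_replicate]

/-- The set defining `K` is bounded.

PROOF. Claim: `Val i (phS^[n] L) j p → p ≤ L.length * (C0 + C3) + C0` for all `i j p`. Induction
on `L`. `L = []`: `phS^[n] [] = []`, `val_nil`. `y :: L`: `phS^[n] (y :: L) =
phS^[n] [y] ++ phS^[n] L` (`phS_iter_append`); `val_split` (any middle height) and `val_letter`
for the first part (`M = phS^[n] [y]`). -/
theorem K_bdd (i : ℕ) (L : List (Fin 2 × Bool)) (j : ℕ) :
    BddAbove {p : ℝ | ∃ n : ℕ, Val (i + n) (phS^[n] L) (j + n) p} := by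
  refine ⟨L.length * (C0 + C3) + C0, ?_⟩
  rintro p ⟨n, hn⟩
  exact ka_bd L n _ _ p hn

/-- `le_csSup K_bdd`. -/
theorem le_K {i : ℕ} {L : List (Fin 2 × Bool)} {j n : ℕ} {p : ℝ}
    (h : Val (i + n) (phS^[n] L) (j + n) p) : p ≤ K i L j := by
  exact le_csSup (K_bdd i L j) ⟨n, h⟩

/-- `csSup_le`; the set is nonempty by `val_triv` (n = 0). -/
theorem K_le {i : ℕ} {L : List (Fin 2 × Bool)} {j : ℕ} {c : ℝ}
    (h : ∀ (n : ℕ) (p : ℝ), Val (i + n) (phS^[n] L) (j + n) p → p ≤ c) : K i L j ≤ c := by
  refine csSup_le ⟨-C0, 0, val_triv _ _ _⟩ ?_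
  rintro p ⟨n, hn⟩
  exact h n p hn

/-- Shift invariance.

PROOF. `≤`: if `Val (i+1+n) (phS^[n] (phS L)) (j+1+n) p` then this is
`Val (i+(n+1)) (phS^[n+1] L) (j+(n+1)) p`: `le_K`. `≥`: `val_shift` applied to
`Val (i+n) (phS^[n] L) (j+n) p`: `phS (phS^[n] L) = phS^[n] (phS L)`. -/
theorem K_shift (i : ℕ) (L : List (Fin 2 × Bool)) (j : ℕ) :
    K (i + 1) (phS L) (j + 1) = K i L j := by
  refine le_antisymm (K_le fun n p h => ?_) (K_le fun n p h => ?_)
  · rw [← Function.iterate_succ_apply, add_right_comm i, add_right_comm j] at h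
    exact le_K (n := n + 1) h
  · have h1 := val_shift h
    rw [← Function.iterate_succ_apply' (f := phS), Function.iterate_succ_apply,
      add_right_comm i, add_right_comm j] at h1
    exact le_K h1

/-- `le_K` with `n = 0` and `val_triv`. -/
theorem neg_C0_le_K (i : ℕ) (L : List (Fin 2 × Bool)) (j : ℕ) : -C0 ≤ K i L j := by
  exact le_K (n := 0) (val_triv _ _ _)

/-- (K1), first half.

PROOF. Let `Val (i+n) (phS^[n] L) (j+n) p` and `Val (j+n') (phS^[n'] L') (k+n') q`. By
`val_shift` (iterated) both hold with `n + n'` in place of `n`, `n'`; `val_append`,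
`phS_iter_append`, `le_K`. Then take suprema (e.g. `K i L j ≤ K i (L ++ L') k - q` for every
such `q` by `K_le`, then again). -/
theorem K_add_le (i : ℕ) (L : List (Fin 2 × Bool)) (j : ℕ) (L' : List (Fin 2 × Bool)) (k : ℕ) :
    K i L j + K j L' k ≤ K i (L ++ L') k := by
  have key : ∀ (n : ℕ) (p : ℝ), Val (i + n) (phS^[n] L) (j + n) p → ∀ (n' : ℕ) (q : ℝ),
      Val (j + n') (phS^[n'] L') (k + n') q → p + q ≤ K i (L ++ L') k := by
    intro n p h n' q h'
    have h1 := ka_shift h n'
    have h2 := ka_shift h' n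
    rw [← Function.iterate_add_apply, add_assoc, add_assoc, add_comm n' n] at h1
    rw [← Function.iterate_add_apply, add_assoc, add_assoc, add_comm n' n] at h2
    have h3 := val_append h1 h2
    rw [← phS_iter_append] at h3
    exact le_K h3
  have h1 : ∀ (n' : ℕ) (q : ℝ), Val (j + n') (phS^[n'] L') (k + n') q →
      K i L j ≤ K i (L ++ L') k - q := fun n' q h' =>
    K_le fun n p h => by linarith [key n p h n' q h']
  have h2 : K j L' k ≤ K i (L ++ L') k - K i L j :=
    K_le fun n' q h' => by linarith [h1 n' q h']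
  linarith

/-- (K1), second half.

PROOF. `K_le`; `phS_iter_append`, `val_split` with middle height `j + n`, `le_K` twice. -/
theorem K_le_add (i : ℕ) (L : List (Fin 2 × Bool)) (j : ℕ) (L' : List (Fin 2 × Bool)) (k : ℕ) :
    K i (L ++ L') k ≤ K i L j + K j L' k + C3 := by
  refine K_le fun n p h => ?_
  rw [phS_iter_append] at h
  obtain ⟨p', p'', h1, h2, h3⟩ := val_split h (j + n)
  have h4 := le_K h1
  have h5 := le_K h2
  linarith

/-- (K2)

PROOF. As before with `val_split_neg`; the letters at the junction are the same for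
`phS^[n] L`, `phS^[n] L'` (`last_phS_iter`, `head_phS_iter`). -/
theorem K_le_add_neg (i : ℕ) (L : List (Fin 2 × Bool)) (j : ℕ) (L' : List (Fin 2 × Bool))
    (k : ℕ) (x y : Fin 2) (hL : L.getLast? = some (x, false))
    (hL' : L'.head? = some (y, false)) :
    K i (L ++ L') k ≤ K i L j + K j L' k + C0 := by
  refine K_le fun n p h => ?_
  rw [phS_iter_append] at h
  obtain ⟨p', p'', h1, h2, h3⟩ := val_split_neg h (j + n) x y
    (by rw [last_phS_iter]; exact hL) (by rw [head_phS_iter]; exact hL')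
  have h4 := le_K h1
  have h5 := le_K h2
  linarith

/-- (K3): a negative nonempty word.

PROOF. `≥`: `neg_C0_le_K`. `≤`: `K_le` and `val_neg`: all letters of `phS^[n] L` are negative
(induction on `n`; `phS1 (x, false)` is negative by `invRev_pos_neg`) and it is nonempty
(`head_phS_iter`). -/
theorem K_neg (i : ℕ) (L : List (Fin 2 × Bool)) (j : ℕ) (hL : L ≠ [])
    (h : ∀ y ∈ L, y.2 = false) : K i L j = -C0 := by
  refine le_antisymm (K_le fun n p h1 => ?_) (neg_C0_le_K i L j)
  refine (val_neg h1 (ka_neg h n)).2 fun h2 => hL ?_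
  have h3 := head_phS_iter n L
  rw [h2, List.head?_nil] at h3
  exact List.head?_eq_none_iff.1 h3.symm

/-- `val_nil`, and base with `v = []`. -/
theorem K_nil_self (i : ℕ) : K i [] i = 0 := by
  refine le_antisymm (K_le fun n p h1 => (val_nil h1 (phS_iter_nil n)).1) ?_
  refine le_K (n := 0) (Val.base _ [] _ _ ?_ nu_nil.symm)
  rw [iter_nil, pos_nil]
  rfl

/-- `val_nil` and `neg_C0_le_K`. -/
theorem K_nil_ne {i j : ℕ} (h : i ≠ j) : K i [] j = -C0 := by
  refine le_antisymm (K_le fun n p h1 => ?_) (neg_C0_le_K i [] j)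
  exact (val_nil h1 (phS_iter_nil n)).2 fun h2 => h (by omega)

/-- Positive words: `le_K` with `n = 0` and the base rule. -/
theorem nu_le_K (i : ℕ) (v : List (Fin 2)) : nu v ≤ K i (pos (ph^[i] v)) i := by
  exact le_K (n := 0) (Val.base i v _ _ rfl rfl)

/-- `nu_le_K` for `i = 0`, `v = [x]`. -/
theorem K_letter (x : Fin 2) : nu [x] ≤ K 0 [(x, true)] 0 := by
  exact nu_le_K 0 [x]

/-- The powers of b, lower bound: `nu_le_K` for `i = 0`, `v = List.replicate n 1`,
`nu (List.replicate n 1) = n`. -/
theorem le_K_pow (n : ℕ) : (n : ℝ) ≤ K 0 (List.replicate n (1, true)) 0 := by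
  have h1 := nu_le_K 0 (List.replicate n 1)
  rw [Function.iterate_zero, id_eq, ← ka_rep, nu, List.count_replicate_self,
    List.count_replicate, if_neg (by decide), Nat.cast_zero, mul_zero, sub_zero] at h1
  exact h1

/-- The powers of b, upper bound: `K_le`, `phS_iter_pos` and `val_pow`. -/
theorem K_pow_le (n : ℕ) : K 0 (List.replicate n (1, true)) 0 ≤ C0 + n := by
  refine K_le fun m p h => ?_
  rw [ka_rep, phS_iter_pos] at h
  exact val_pow h (List.prefix_refl _)

end SclIrr.W
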