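import Pool.Agent.Lib.MP_ed1a61_al_W.Defs

/-! # Recognisability of the substitution -/

set_option autoImplicit false

namespace SclIrr.W

/-- (W2), a finite check: `φ(x)` is not an initial part of `drop r φ(y) ++ φ(z) ++ φ(z')` for
`0 < r < |φ(y)|`. -/
theorem w2 : ∀ x y z z' : Fin 2, ∀ r : Fin 27, 0 < r.1 → r.1 < (phL y).length →
    ¬ (phL x <+: ((phL y).drop r.1 ++ phL z ++ phL z')) := by
  decide +kernel

/-- Cutting `φ(w)` into two pieces: the cut is at a boundary of blocks or inside a block. -/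
theorem split_ph (w A B : List (Fin 2)) (h : A ++ B = ph w) :
    (∃ w1 w2, w = w1 ++ w2 ∧ A = ph w1 ∧ B = ph w2) ∨
    (∃ w1 x w2 P Q, w = w1 ++ x :: w2 ∧ P ≠ [] ∧ Q ≠ [] ∧ P ++ Q = phL x ∧
      A = ph w1 ++ P ∧ B = Q ++ ph w2) := by
  induction w generalizing A with
  | nil =>
    left
    rw [ph_nil] at h
    obtain ⟨rfl, rfl⟩ := List.append_eq_nil_iff.1 h
    exact ⟨[], [], rfl, rfl, rfl⟩
  | cons x w ih =>
    rw [ph_cons, List.append_eq_append_iff] at h
    rcases h with ⟨Q, h1, h2⟩ | ⟨A', h1, h2⟩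
    · -- `phL x = A ++ Q`, `B = Q ++ ph w`
      by_cases hA : A = []
      · left
        subst hA
        refine ⟨[], x :: w, rfl, rfl, ?_⟩
        rw [ph_cons, h2, h1]
        simp
      · by_cases hQ : Q = []
        · left
          subst hQ
          refine ⟨[x], w, rfl, ?_, ?_⟩
          · rw [ph_single, h1]
            simp
          · simpa using h2
        · right
          exact ⟨[], x, w, A, Q, rfl, hA, hQ, h1.symm, rfl, h2⟩
    · -- `A = phL x ++ A'`, `ph w = A' ++ B`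
      rcases ih A' h2.symm with ⟨w1, w2, e1, e2, e3⟩ | ⟨w1, y, w2, P, Q, e1, e2, e3, e4, e5, e6⟩
      · left
        refine ⟨x :: w1, w2, by rw [e1]; rfl, ?_, e3⟩
        rw [h1, e2, ph_cons]
      · right
        refine ⟨x :: w1, y, w2, P, Q, by rw [e1]; rfl, e2, e3, e4, ?_, e6⟩
        rw [h1, e5, ph_cons, List.append_assoc]

/-- The images of the letters begin with different letters. -/
theorem phL_head (x : Fin 2) : ∃ t, phL x = x :: t := by
  fin_cases x <;> exact ⟨_, rfl⟩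

theorem rec_aligned (v P w : List (Fin 2)) (h : ph v ++ P = ph w) :
    ∃ w3, w = v ++ w3 ∧ P = ph w3 := by
  induction v generalizing w with
  | nil => exact ⟨w, rfl, by simpa [ph_nil] using h⟩
  | cons x v ih =>
    cases w with
    | nil =>
      exfalso
      rw [ph_cons, ph_nil, List.append_assoc] at h
      have := (List.append_eq_nil_iff.1 h).1
      exact phL_ne_nil x this
    | cons y w =>
      have hxy : x = y := by
        obtain ⟨t, ht⟩ := phL_head x
        obtain ⟨t', ht'⟩ := phL_head y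
        rw [ph_cons, ph_cons, ht, ht'] at h
        simp only [List.cons_append, List.cons.injEq] at h
        exact h.1
      subst hxy
      rw [ph_cons, ph_cons, List.append_assoc, List.append_cancel_left_eq] at h
      obtain ⟨w3, e1, e2⟩ := ih w h
      exact ⟨w3, by rw [e1]; rfl, e2⟩

theorem rec_inside (x y : Fin 2) (P Q T u2 : List (Fin 2)) (hP : P ≠ []) (hQ : Q ≠ [])
    (hPQ : P ++ Q = phL y) (h : phL x ++ T = Q ++ ph u2) : False := by
  -- two more letters on the right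
  have h1 : phL x <+: Q ++ ph (u2 ++ [0, 0]) := by
    refine ⟨T ++ ph [0, 0], ?_⟩
    rw [← List.append_assoc, h, ph_append, List.append_assoc]
  obtain ⟨z, z', w3, hw⟩ : ∃ z z' w3, u2 ++ [0, 0] = z :: z' :: w3 := by
    rcases u2 with _ | ⟨z, _ | ⟨z', w3⟩⟩
    · exact ⟨0, 0, [], rfl⟩
    · exact ⟨z, 0, [0], rfl⟩
    · exact ⟨z, z', w3 ++ [0, 0], rfl⟩
  rw [hw, ph_cons, ph_cons] at h1
  have h2 : phL x <+: Q ++ phL z ++ phL z' := by
    have h3 : Q ++ phL z ++ phL z' <+: Q ++ (phL z ++ (phL z' ++ ph w3)) :=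
      ⟨ph w3, by simp only [List.append_assoc]⟩
    refine List.prefix_of_prefix_length_le h1 h3 ?_
    have e1 := length_phL_le x
    have e2 := le_length_phL z
    have e3 := le_length_phL z'
    simp only [List.length_append]
    omega
  have hlen : P.length + Q.length = (phL y).length := by
    rw [← hPQ, List.length_append]
  have hP' := List.length_pos_of_ne_nil hP
  have hQ' := List.length_pos_of_ne_nil hQ
  have hy := length_phL_le y
  have h4 := w2 x y z z' ⟨P.length, by omega⟩ hP' (by simp only; omega)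
  apply h4
  simp only
  rw [← hPQ, List.drop_left]
  exact h2

/-- (R) recognisability: `φ(v)` occurs in `φ(w)` only at block boundaries. -/
theorem rec1 (S v P w : List (Fin 2)) (hv : v ≠ []) (h : S ++ ph v ++ P = ph w) :
    ∃ w1 w2, w = w1 ++ v ++ w2 ∧ S = ph w1 ∧ P = ph w2 := by
  rw [List.append_assoc] at h
  rcases split_ph w S (ph v ++ P) h with ⟨w1, w2, e1, e2, e3⟩ | ⟨w1, y, w2, P', Q, e1, e2, e3, e4,
    e5, e6⟩
  · obtain ⟨w3, f1, f2⟩ := rec_aligned v P w2 e3
    exact ⟨w1, w3, by rw [e1, f1, List.append_assoc], e2, f2⟩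
  · exfalso
    cases v with
    | nil => exact hv rfl
    | cons x v =>
      rw [ph_cons, List.append_assoc] at e6
      exact rec_inside x y P' Q _ w2 e2 e3 e4 e6

/-- (R) iterated. -/
theorem recN (n : ℕ) (S v P w : List (Fin 2)) (hv : v ≠ [])
    (h : S ++ ph^[n] v ++ P = ph^[n] w) :
    ∃ w1 w2, w = w1 ++ v ++ w2 ∧ S = ph^[n] w1 ∧ P = ph^[n] w2 := by
  induction n generalizing S P with
  | zero => exact ⟨S, P, h.symm, rfl, rfl⟩
  | succ n ih =>
    rw [Function.iterate_succ_apply', Function.iterate_succ_apply'] at h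
    have hv' : ph^[n] v ≠ [] := fun h0 => hv (iter_eq_nil h0)
    obtain ⟨w1, w2, e1, e2, e3⟩ := rec1 S (ph^[n] v) P (ph^[n] w) hv' h
    obtain ⟨u1, u2, f1, f2, f3⟩ := ih w1 w2 e1.symm
    refine ⟨u1, u2, f1, ?_, ?_⟩
    · rw [Function.iterate_succ_apply', ← f2, e2]
    · rw [Function.iterate_succ_apply', ← f3, e3]

/-- (R') for `h ≤ k`. -/
theorem rec_le {h k : ℕ} (hk : h ≤ k) (S v P w : List (Fin 2)) (hv : v ≠ [])
    (he : S ++ ph^[h] v ++ P = ph^[k] w) :
    ∃ w1 w2, ph^[k - h] w = w1 ++ v ++ w2 ∧ S = ph^[h] w1 ∧ P = ph^[h] w2 := by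
  obtain ⟨d, rfl⟩ := Nat.exists_eq_add_of_le hk
  rw [Function.iterate_add_apply] at he
  have := recN h S v P (ph^[d] w) hv he
  rwa [Nat.add_sub_cancel_left]

/-- (R') for `k ≤ h`. -/
theorem rec_ge {h k : ℕ} (hk : k ≤ h) (S v P w : List (Fin 2)) (hv : v ≠ [])
    (he : S ++ ph^[h] v ++ P = ph^[k] w) :
    ∃ w1 w2, w = w1 ++ ph^[h - k] v ++ w2 ∧ S = ph^[k] w1 ∧ P = ph^[k] w2 := by
  obtain ⟨d, rfl⟩ := Nat.exists_eq_add_of_le hk
  rw [Function.iterate_add_apply] at he
  have := recN k S (ph^[d] v) P w (fun h0 => hv (iter_eq_nil h0)) he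
  rwa [Nat.add_sub_cancel_left]

/-- Cutting `φⁿ(w)` into two pieces. -/
theorem split_iter (n : ℕ) (w A B : List (Fin 2)) (h : A ++ B = ph^[n] w) :
    (w = [] ∧ A = [] ∧ B = []) ∨
    (∃ w1 x w2 P Q, w = w1 ++ x :: w2 ∧ P ++ Q = ph^[n] [x] ∧
      A = ph^[n] w1 ++ P ∧ B = Q ++ ph^[n] w2) := by
  induction w generalizing A with
  | nil =>
    left
    rw [iter_nil] at h
    obtain ⟨rfl, rfl⟩ := List.append_eq_nil_iff.1 h
    exact ⟨rfl, rfl, rfl⟩
  | cons x w ih =>
    right
    rw [iter_cons, List.append_eq_append_iff] at h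
    rcases h with ⟨Q, h1, h2⟩ | ⟨A', h1, h2⟩
    · exact ⟨[], x, w, A, Q, rfl, h1.symm, by rw [iter_nil]; rfl, h2⟩
    · rcases ih A' h2.symm with ⟨e1, e2, e3⟩ | ⟨w1, y, w2, P, Q, e1, e2, e3, e4⟩
      · subst e1 e2 e3
        refine ⟨[], x, [], A, [], rfl, ?_, ?_, ?_⟩
        · rw [h1]
          simp
        · rw [iter_nil]
          rfl
        · rw [iter_nil]
          rfl
      · refine ⟨x :: w1, y, w2, P, Q, by rw [e1]; rfl, e2, ?_, e4⟩
        rw [h1, e3, iter_cons n x w1, List.append_assoc]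

end SclIrr.W
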